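import Pool.Agent.Lib.PC37.Conv

set_option autoImplicit false

open scoped LinearAlgebra.Projectivization

namespace Pool.Agent.Results.MP_deb346_gt.Circles

open Pool.Agent.Lib.MP_deb346_gt Pool.Agent.Lib.PC37

/-- A projective-metric plane has its small circles on conics if and only if it is a model of a
classical geometry (a piece of one, if it is not complete).  First part: planes of type (i).
Second part: planes of type (ii). -/
theorem result :
    (∀ (X : Type) [MetricSpace X] [Nonempty X] (i : X → ℝ × ℝ), Topology.IsOpenEmbedding i →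
      Convex ℝ (Set.range i) →
      (∀ x y z : X, dist x y + dist y z = dist x z ↔ i y ∈ segment ℝ (i x) (i z)) →
      (CirclesOnConics (fun x : X => hom (i x)) ↔
        ∃ (T : (Fin 3 → ℝ) ≃ₗ[ℝ] (Fin 3 → ℝ)) (c : ℝ), 0 < c ∧
          (EuclideanModel (fun x : X => T (hom (i x))) c ∨
            KleinModel (fun x : X => T (hom (i x))) c ∨
            SphericalPiece (fun x : X => T (hom (i x))) c))) ∧
    (∀ [MetricSpace (ℙ ℝ (Fin 3 → ℝ))],
      Topology.IsQuotientMap
        (fun v : {v : Fin 3 → ℝ // v ≠ 0} => Projectivization.mk ℝ v.1 v.2) →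
      (∃ L : ℝ, 0 < L ∧ ∀ W : Submodule ℝ (Fin 3 → ℝ), Module.finrank ℝ W = 2 →
        ∃ γ : AddCircle L → ℙ ℝ (Fin 3 → ℝ), Isometry γ ∧
          Set.range γ = {p | p.submodule ≤ W}) →
      (CirclesOnConics (fun p : ℙ ℝ (Fin 3 → ℝ) => p.rep) ↔
        ∃ (T : (Fin 3 → ℝ) ≃ₗ[ℝ] (Fin 3 → ℝ)) (c : ℝ), 0 < c ∧
          ∀ x y : ℙ ℝ (Fin 3 → ℝ), dist x y = c * ell (T x.rep) (T y.rep))) :=
  ⟨fun _ _ _ _ hi hc hadd =>
      ⟨Pool.Agent.Lib.PC37.affine_case hi hc hadd, fun h => (small_affine h).circ⟩,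
    fun hq ⟨_, hL, hline⟩ =>
      ⟨Pool.Agent.Lib.PC37.elliptic_case hq.continuous hL hline, fun h => (small_ell h).circ⟩⟩

end Pool.Agent.Results.MP_deb346_gt.Circles
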