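import Pool.Agent.Lib.PC37.ConvE

set_option autoImplicit false

open scoped LinearAlgebra.Projectivization

namespace Pool.Agent.Results.MP_deb346_gt.Iff

open Pool.Agent.Lib.MP_deb346_gt
open Pool.Agent.Lib.PC37 (EllipsesAreQuadrics)

/-- The ellipses of a projective-metric plane are quadrics if and only if the plane is a model of
a classical geometry.  First part: planes of type (i), without and with completeness.
Second part: planes of type (ii). -/
theorem result :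
    (∀ (X : Type) [MetricSpace X] [Nonempty X] (i : X → ℝ × ℝ), Topology.IsOpenEmbedding i →
      Convex ℝ (Set.range i) →
      (∀ x y z : X, dist x y + dist y z = dist x z ↔ i y ∈ segment ℝ (i x) (i z)) →
      (EllipsesOnConics (fun x : X => hom (i x)) ↔
        ∃ (T : (Fin 3 → ℝ) ≃ₗ[ℝ] (Fin 3 → ℝ)) (c : ℝ), 0 < c ∧
          (EuclideanModel (fun x : X => T (hom (i x))) c ∨
            KleinModel (fun x : X => T (hom (i x))) c ∨
            SphericalPiece (fun x : X => T (hom (i x))) c)) ∧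
      (CompleteSpace X →
        (EllipsesAreQuadrics (fun x : X => hom (i x)) Set.univ ↔
          ∃ (T : (Fin 3 → ℝ) ≃ₗ[ℝ] (Fin 3 → ℝ)) (c : ℝ), 0 < c ∧
            (EuclideanModel (fun x : X => T (hom (i x))) c ∨
              KleinModel (fun x : X => T (hom (i x))) c)))) ∧
    (∀ [MetricSpace (ℙ ℝ (Fin 3 → ℝ))],
      Topology.IsQuotientMap
        (fun v : {v : Fin 3 → ℝ // v ≠ 0} => Projectivization.mk ℝ v.1 v.2) →
      ∀ L : ℝ, 0 < L → (∀ W : Submodule ℝ (Fin 3 → ℝ), Module.finrank ℝ W = 2 →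
        ∃ γ : AddCircle L → ℙ ℝ (Fin 3 → ℝ), Isometry γ ∧
          Set.range γ = {p | p.submodule ≤ W}) →
      (EllipsesOnConics (fun p : ℙ ℝ (Fin 3 → ℝ) => p.rep) ↔
        ∃ (T : (Fin 3 → ℝ) ≃ₗ[ℝ] (Fin 3 → ℝ)) (c : ℝ), 0 < c ∧
          ∀ x y : ℙ ℝ (Fin 3 → ℝ), dist x y = c * ell (T x.rep) (T y.rep)) ∧
      (EllipsesAreQuadrics (fun p : ℙ ℝ (Fin 3 → ℝ) => p.rep) (Set.Iio (L / 2)) ↔
        ∃ (T : (Fin 3 → ℝ) ≃ₗ[ℝ] (Fin 3 → ℝ)) (c : ℝ), 0 < c ∧
          ∀ x y : ℙ ℝ (Fin 3 → ℝ), dist x y = c * ell (T x.rep) (T y.rep))) := by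
  refine ⟨fun X _ _ i hi hc hadd => ⟨⟨affine_case hi hc hadd,
    fun h => (Pool.Agent.Lib.PC37E.small_affine h).ell⟩, fun hX =>
      ⟨fun h => ?_, Pool.Agent.Lib.PC37E.quad_affine⟩⟩, fun hq L hL hline =>
    ⟨⟨elliptic_case hq.continuous hL hline, fun h => (Pool.Agent.Lib.PC37E.small_ell h).ell⟩,
      fun h => elliptic_case hq.continuous hL hline
        (Pool.Agent.Lib.PC37E.quad_on h (half_pos hL) subset_rfl),
      Pool.Agent.Lib.PC37E.quad_ell hL hline⟩⟩
  obtain ⟨T, c, h0, h1 | h1 | h1⟩ := affine_case hi hc hadd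
    (Pool.Agent.Lib.PC37E.quad_on h one_pos (Set.subset_univ _))
  · exact ⟨T, c, h0, Or.inl h1⟩
  · exact ⟨T, c, h0, Or.inr h1⟩
  · exact absurd hX h1.2

end Pool.Agent.Results.MP_deb346_gt.Iff
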